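import Mathlib

/-!
# Separation of the zeros of `∑ C(n,k) z^k w^(k(n-k))` for real `w`
-/

set_option autoImplicit false

open Polynomial Finset

namespace Pool.Agent.Results.MP_f76da2_an.RealCase

/-- `P_n(z, w) = ∑ C(n,k) z^k w^(k(n-k))` as a polynomial in `z`. -/
noncomputable def P {K : Type*} [Field K] (n : ℕ) (w : K) : K[X] :=
  ∑ k ∈ range (n + 1), C ((n.choose k : K) * w ^ (k * (n - k))) * X ^ k

section field

variable {K : Type*} [Field K]

theorem eval_P (n : ℕ) (w z : K) :
    (P n w).eval z = ∑ k ∈ range (n + 1), (n.choose k : K) * w ^ (k * (n - k)) * z ^ k := by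
  simp [P, eval_finsetSum]

/-- `P_{n+1}(z) = P_n(wz) + z w^n P_n(z/w)` -/
theorem eval_succ (n : ℕ) {w : K} (hw : w ≠ 0) (z : K) :
    (P (n + 1) w).eval z = (P n w).eval (w * z) + z * w ^ n * (P n w).eval (z / w) := by
  rw [eval_P, eval_P, eval_P, Finset.sum_range_succ']
  have h1 : ∀ k ∈ range (n + 1), ((n + 1).choose (k + 1) : K) * w ^ ((k + 1) * (n + 1 - (k + 1))) *
      z ^ (k + 1) = (n.choose (k + 1) : K) * w ^ ((k + 1) * (n - k)) * z ^ (k + 1) +
      z * w ^ n * ((n.choose k : K) * w ^ (k * (n - k)) * (z / w) ^ k) := by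
    intro k hk
    have hk' : k ≤ n := Nat.lt_succ_iff.1 (mem_range.1 hk)
    have e1 : n + 1 - (k + 1) = n - k := by omega
    have e2 : w ^ n = w ^ (n - k) * w ^ k := by rw [← pow_add]; congr 1; omega
    rw [Nat.choose_succ_succ, e1, e2, div_pow]
    push_cast
    have e3 : (k + 1) * (n - k) = k * (n - k) + (n - k) := by ring
    rw [e3, pow_add w (k * (n - k)) (n - k)]
    field_simp
    ring
  rw [Finset.sum_congr rfl h1, Finset.sum_add_distrib, ← Finset.mul_sum]
  have h2 : ∑ k ∈ range (n + 1), (n.choose k : K) * w ^ (k * (n - k)) * (w * z) ^ k =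
      ∑ k ∈ range (n + 1), (n.choose k : K) * w ^ (k * (n + 1 - k)) * z ^ k := by
    refine Finset.sum_congr rfl fun k hk => ?_
    have hk' : k ≤ n := Nat.lt_succ_iff.1 (mem_range.1 hk)
    have e1 : k * (n + 1 - k) = k * (n - k) + k := by
      rw [show n + 1 - k = (n - k) + 1 by omega]; ring
    rw [e1, pow_add, mul_pow]
    ring
  have h3 : ∑ k ∈ range (n + 1), (n.choose k : K) * w ^ (k * (n + 1 - k)) * z ^ k =
      ∑ k ∈ range (n + 1), (n.choose (k + 1) : K) * w ^ ((k + 1) * (n - k)) * z ^ (k + 1) + 1 := by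
    have h4 := Finset.sum_range_succ' (fun k => (n.choose k : K) * w ^ (k * (n + 1 - k)) * z ^ k)
      (n + 1)
    rw [Finset.sum_range_succ] at h4
    simp only [Nat.choose_succ_self, Nat.cast_zero, zero_mul, add_zero, Nat.choose_zero_right,
      Nat.cast_one, pow_zero, mul_one, Nat.add_sub_add_right] at h4
    exact h4
  rw [h2, h3]
  simp
  ring

theorem monic_P (n : ℕ) (w : K) : (P n w).Monic ∧ (P n w).natDegree = n := by
  have h : P n w = X ^ n + ∑ k ∈ range n, C ((n.choose k : K) * w ^ (k * (n - k))) * X ^ k := by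
    rw [P, Finset.sum_range_succ, add_comm]
    simp
  have hd : degree (∑ k ∈ range n, C ((n.choose k : K) * w ^ (k * (n - k))) * X ^ k) <
      ((n : ℕ) : WithBot ℕ) := by
    rw [degree_lt_iff_coeff_zero]
    intro m hm
    rw [finsetSum_coeff]
    refine Finset.sum_eq_zero fun k hk => ?_
    have hk' := mem_range.1 hk
    rw [coeff_C_mul, coeff_X_pow, if_neg (by omega), mul_zero]
  have hm : (P n w).Monic := by rw [h]; exact monic_X_pow_add hd
  refine ⟨hm, ?_⟩
  rw [h]
  apply natDegree_eq_of_degree_eq_some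
  rw [degree_add_eq_left_of_degree_lt, degree_X_pow]
  rwa [degree_X_pow]

end field

/-- sign of the product `∏ (x_i - y)` -/
theorem sign_prod {n m : ℕ} (hm : m ≤ n) {x : ℕ → ℝ} {y : ℝ} (h1 : ∀ i, i < m → x i < y)
    (h2 : ∀ i, m ≤ i → i < n → y < x i) : 0 < (-1) ^ m * ∏ i ∈ range n, (x i - y) := by
  rw [← Finset.prod_range_mul_prod_Ico _ hm, ← mul_assoc]
  have e : (-1 : ℝ) ^ m * ∏ i ∈ range m, (x i - y) = ∏ i ∈ range m, (y - x i) := by
    have : (-1 : ℝ) ^ m = ∏ _i ∈ range m, (-1 : ℝ) := by simp
    rw [this, ← Finset.prod_mul_distrib]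
    exact Finset.prod_congr rfl fun i _ => by ring
  rw [e]
  refine mul_pos (Finset.prod_pos fun i hi => ?_) (Finset.prod_pos fun i hi => ?_)
  · have := h1 i (mem_range.1 hi); linarith
  · have h3 := mem_Ico.1 hi
    have := h2 i h3.1 h3.2; linarith

/-- The zeros for real `w > 1`. -/
theorem main {w : ℝ} (hw : 1 < w) (n : ℕ) : ∃ x : ℕ → ℝ, (∀ i, i < n → 0 < x i) ∧
    (∀ i j, i < j → j < n → w ^ 2 * x i < x j) ∧
      ∀ y, (P n w).eval (-y) = ∏ i ∈ range n, (x i - y) := by
  have hw0 : 0 < w := by linarith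
  have hw2 : 1 < w ^ 2 := by nlinarith
  induction n with
  | zero =>
    refine ⟨fun _ => 0, fun i hi => absurd hi (Nat.not_lt_zero i),
      fun i j _ hj => absurd hj (Nat.not_lt_zero j), fun y => ?_⟩
    rw [eval_P]
    simp
  | succ n ih =>
    obtain ⟨x, hx0, hx1, hx2⟩ := ih
    have hmono : ∀ i j, i ≤ j → j < n → x i ≤ x j := by
      intro i j hij hj
      rcases hij.eq_or_lt with rfl | hij
      · exact le_rfl
      · have h1 := hx1 i j hij hj
        have h2 := hx0 i (by omega)
        nlinarith
    set G : ℝ → ℝ := fun y => (P (n + 1) w).eval (-y) with hG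
    have hGc : Continuous G := (P (n + 1) w).continuous.comp continuous_neg
    have hGe : ∀ y, G y = ∏ i ∈ range n, (x i - w * y) -
        y * w ^ n * ∏ i ∈ range n, (x i - y / w) := by
      intro y
      have h1 := eval_succ n hw0.ne' (-y)
      have e1 : w * -y = -(w * y) := by ring
      have e2 : -y / w = -(y / w) := by ring
      rw [e1, e2, hx2, hx2] at h1
      rw [hG]
      simp only
      rw [h1]
      ring
    -- the left end points
    have hleft : ∀ j, j ≤ n → 0 < (-1) ^ j * G (if j = 0 then 0 else w * x (j - 1)) := by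
      intro j hj
      by_cases h0 : j = 0
      · subst h0
        rw [if_pos rfl, hGe]
        simp only [pow_zero, one_mul, mul_zero, sub_zero, zero_mul]
        exact Finset.prod_pos fun i hi => hx0 i (mem_range.1 hi)
      · rw [if_neg h0, hGe]
        have hj1 : j - 1 < n := by omega
        have hz : ∏ i ∈ range n, (x i - w * x (j - 1) / w) = 0 := by
          refine Finset.prod_eq_zero (mem_range.2 hj1) ?_
          rw [mul_div_cancel_left₀ _ hw0.ne', sub_self]
        rw [hz, mul_zero, sub_zero]
        have hp := hx0 (j - 1) hj1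
        refine sign_prod hj (fun i hi => ?_) (fun i hi hi' => ?_)
        · have h1 := hmono i (j - 1) (by omega) hj1
          have h2 : x (j - 1) < w * (w * x (j - 1)) := by
            have : w * (w * x (j - 1)) = w ^ 2 * x (j - 1) := by ring
            rw [this]; nlinarith
          linarith
        · have h1 := hx1 (j - 1) i (by omega) hi'
          have : w * (w * x (j - 1)) = w ^ 2 * x (j - 1) := by ring
          rw [this]; exact h1
    -- the right end points
    have hright : ∀ j, j < n → (-1) ^ j * G (x j / w) < 0 := by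
      intro j hj
      rw [hGe]
      have hz : ∏ i ∈ range n, (x i - w * (x j / w)) = 0 := by
        refine Finset.prod_eq_zero (mem_range.2 hj) ?_
        rw [mul_div_cancel₀ _ hw0.ne', sub_self]
      have hp := hx0 j hj
      have e1 : x j / w / w * w ^ 2 = x j := by field_simp
      have hq : 0 < x j / w / w := by positivity
      have hs := sign_prod (n := n) (m := j) hj.le (x := x) (y := x j / w / w)
        (fun i hi => by
          have h1 := hx1 i j hi hj
          nlinarith)
        (fun i hi hi' => by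
          have h1 := hmono j i hi hi'
          nlinarith)
      rw [hz, zero_sub]
      have h3 : 0 < x j / w * w ^ n := by positivity
      have e2 : (-1 : ℝ) ^ j * -(x j / w * w ^ n * ∏ i ∈ range n, (x i - x j / w / w)) =
          -((x j / w * w ^ n) * ((-1) ^ j * ∏ i ∈ range n, (x i - x j / w / w))) := by ring
      rw [e2, neg_lt_zero]
      exact mul_pos h3 hs
    have hivt : ∀ j (a b : ℝ), a < b → 0 < (-1) ^ j * G a → (-1) ^ j * G b < 0 →
        ∃ z, a < z ∧ z < b ∧ G z = 0 := by
      intro j a b hab ha hb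
      have hc : ContinuousOn (fun y => (-1) ^ j * G y) (Set.Icc a b) :=
        (continuous_const.mul hGc).continuousOn
      obtain ⟨z, hz, hz'⟩ := intermediate_value_Ioo' hab.le hc ⟨hb, ha⟩
      refine ⟨z, hz.1, hz.2, ?_⟩
      have h1 : (-1 : ℝ) ^ j ≠ 0 := pow_ne_zero _ (by norm_num)
      exact (mul_eq_zero.1 hz').resolve_left h1
    have hex : ∀ j, ∃ z, j ≤ n → (if j = 0 then 0 else w * x (j - 1)) < z ∧
        (j < n → z < x j / w) ∧ G z = 0 := by
      intro j
      by_cases hjn : j < n
      · have hab : (if j = 0 then 0 else w * x (j - 1)) < x j / w := by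
          rw [lt_div_iff₀ hw0]
          by_cases h0 : j = 0
          · rw [if_pos h0, zero_mul]; exact hx0 j hjn
          · rw [if_neg h0]
            have h1 := hx1 (j - 1) j (by omega) hjn
            nlinarith
        obtain ⟨z, h1, h2, h3⟩ := hivt j _ _ hab (hleft j hjn.le) (hright j hjn)
        exact ⟨z, fun _ => ⟨h1, fun _ => h2, h3⟩⟩
      · by_cases hj : j = n
        · subst hj
          have hlim : Filter.Tendsto (fun y => (C ((-1 : ℝ) ^ (j + 1)) *
              (P (j + 1) w).comp (-X)).eval y) Filter.atTop Filter.atTop := by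
            obtain ⟨hm, hd⟩ := monic_P (j + 1) w
            have hc : (-1 : ℝ) ^ (j + 1) ≠ 0 := pow_ne_zero _ (by norm_num)
            have hnd : (-X : ℝ[X]).natDegree = 1 := by rw [natDegree_neg, natDegree_X]
            have hlc : (C ((-1 : ℝ) ^ (j + 1)) * (P (j + 1) w).comp (-X)).leadingCoeff = 1 := by
              rw [leadingCoeff_mul, leadingCoeff_C, leadingCoeff_comp (by rw [hnd]; norm_num),
                hm.leadingCoeff, hd, leadingCoeff_neg, leadingCoeff_X, one_mul, ← mul_pow]
              norm_num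
            refine tendsto_atTop_of_leadingCoeff_nonneg _ ?_ (by rw [hlc]; exact zero_le_one)
            rw [← natDegree_pos_iff_degree_pos, natDegree_C_mul hc, natDegree_comp, hd, hnd]
            omega
          obtain ⟨b, hb1, hb2⟩ := ((hlim.eventually_gt_atTop 0).and
            (Filter.eventually_gt_atTop (if j = 0 then 0 else w * x (j - 1)))).exists
          have hb3 : (-1) ^ j * G b < 0 := by
            rw [eval_mul, eval_C, eval_comp] at hb1
            simp only [eval_neg, eval_X] at hb1
            rw [pow_succ] at hb1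
            have : (-1 : ℝ) ^ j * G b = -((-1) ^ j * -1 * (P (j + 1) w).eval (-b)) := by
              rw [hG]; ring
            rw [this, neg_lt_zero]
            exact hb1
          obtain ⟨z, h1, h2, h3⟩ := hivt j _ _ hb2 (hleft j le_rfl) hb3
          exact ⟨z, fun _ => ⟨h1, fun h => absurd h (lt_irrefl _), h3⟩⟩
        · exact ⟨0, fun h => absurd h (by omega)⟩
    choose ζ hζ using hex
    have hpos : ∀ i, i < n + 1 → 0 < ζ i := by
      intro i hi
      obtain ⟨h1, -, -⟩ := hζ i (by omega)
      by_cases h0 : i = 0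
      · rwa [if_pos h0] at h1
      · rw [if_neg h0] at h1
        have := hx0 (i - 1) (by omega)
        have : 0 < w * x (i - 1) := by positivity
        linarith
    have hsep : ∀ i j, i < j → j < n + 1 → w ^ 2 * ζ i < ζ j := by
      intro i j hij hj
      obtain ⟨-, h2, -⟩ := hζ i (by omega)
      obtain ⟨h1, -, -⟩ := hζ j (by omega)
      rw [if_neg (by omega)] at h1
      have h3 := h2 (by omega)
      rw [lt_div_iff₀ hw0] at h3
      have h4 := hmono i (j - 1) (by omega) (by omega)
      nlinarith
    refine ⟨ζ, hpos, hsep, ?_⟩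
    have hfac : P (n + 1) w = ∏ i ∈ range (n + 1), (X + C (ζ i)) := by
      obtain ⟨hm, hd⟩ := monic_P (n + 1) w
      have hm' : (∏ i ∈ range (n + 1), (X + C (ζ i))).Monic :=
        monic_prod_of_monic _ _ fun i _ => monic_X_add_C _
      have hd' : (∏ i ∈ range (n + 1), (X + C (ζ i))).natDegree = n + 1 := by
        rw [natDegree_prod_of_monic _ _ fun i _ => monic_X_add_C _]
        simp
      refine eq_of_degree_sub_lt_of_eval_index_eq (range (n + 1)) (v := fun i => -ζ i) ?_ ?_ ?_
      · intro i hi j hj hij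
        have hi' := mem_range.1 (Finset.mem_coe.1 hi)
        have hj' := mem_range.1 (Finset.mem_coe.1 hj)
        have e : ζ i = ζ j := neg_injective hij
        rcases lt_trichotomy i j with h | h | h
        · have h5 := hsep i j h hj'
          have h6 := hpos i hi'
          nlinarith
        · exact h
        · have h5 := hsep j i h hi'
          have h6 := hpos j hj'
          nlinarith
      · rw [card_range]
        have hdeg : (P (n + 1) w).degree = ((n + 1 : ℕ) : WithBot ℕ) := by
          rw [degree_eq_natDegree hm.ne_zero, hd]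
        have hdeg' : (∏ i ∈ range (n + 1), (X + C (ζ i))).degree = ((n + 1 : ℕ) : WithBot ℕ) := by
          rw [degree_eq_natDegree hm'.ne_zero, hd']
        rw [← hdeg]
        exact degree_sub_lt_left (by rw [hdeg, hdeg']) hm.ne_zero
          (by rw [hm.leadingCoeff, hm'.leadingCoeff])
      · intro i hi
        have hi' := mem_range.1 hi
        obtain ⟨-, -, h3⟩ := hζ i (by omega)
        have h7 : (∏ k ∈ range (n + 1), (X + C (ζ k))).eval (-ζ i) = 0 := by
          rw [eval_prod]
          exact Finset.prod_eq_zero hi (by simp)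
        rw [h7]
        exact h3
    intro y
    rw [hfac, eval_prod]
    exact Finset.prod_congr rfl fun i _ => by simp; ring

theorem P_map (n : ℕ) (w : ℝ) : P n (w : ℂ) = (P n w).map (algebraMap ℝ ℂ) := by
  simp [P, Polynomial.map_sum]

theorem P_neg_odd {n : ℕ} (hn : Odd n) (w : ℂ) : P n (-w) = P n w := by
  refine Finset.sum_congr rfl fun k hk => ?_
  have hk' : k ≤ n := Nat.lt_succ_iff.1 (mem_range.1 hk)
  have : Even (k * (n - k)) := by
    rcases Nat.even_or_odd k with h | h
    · exact h.mul_right _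
    · exact (Nat.Odd.sub_odd hn h).mul_left _
  rw [this.neg_pow]

theorem P_neg_even {n : ℕ} (hn : Even n) (w : ℂ) : P n (-w) = (P n w).comp (-X) := by
  rw [P, P, Polynomial.sum_comp]
  refine Finset.sum_congr rfl fun k hk => ?_
  have hk' : k ≤ n := Nat.lt_succ_iff.1 (mem_range.1 hk)
  rw [mul_comp, C_comp, X_pow_comp]
  rcases Nat.even_or_odd k with h | h
  · rw [(h.mul_right _).neg_pow, h.neg_pow]
  · rw [(h.mul (Nat.Even.sub_odd hk' hn h)).neg_pow, h.neg_pow, mul_neg, C_neg, neg_mul, mul_neg]

/-- For real `w` with `|w| > 1` the polynomial `P_n(z, w)` has `n` real zeros `z_1, …, z_n`, all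
simple, with `|z_{j+1}| > |w|^2 |z_j|`. -/
theorem result (n : ℕ) (w : ℝ) (hw : 1 < |w|) : ∃ z : Fin n → ℝ,
    (P n (w : ℂ)).roots = Finset.univ.val.map (fun i => (z i : ℂ)) ∧
      ∀ i j, i < j → |w| ^ 2 * |z i| < |z j| := by
  obtain ⟨x, hx0, hx1, hx2⟩ := main hw n
  have hfac : P n |w| = ∏ i ∈ range n, (X + C (x i)) := by
    apply Polynomial.funext
    intro r
    have h1 := hx2 (-r)
    rw [neg_neg] at h1
    rw [h1, eval_prod]
    exact Finset.prod_congr rfl fun i _ => by simp; ring
  have hfacC : P n ((|w| : ℝ) : ℂ) = ∏ i ∈ range n, (X + C (x i : ℂ)) := by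
    rw [P_map, hfac, Polynomial.map_prod]
    simp
  have key : ∃ s : ℝ, |s| = 1 ∧ P n (w : ℂ) = ∏ i ∈ range n, (X - C ((s * x i : ℝ) : ℂ)) := by
    rcases le_total 0 w with h0 | h0
    · refine ⟨-1, by simp, ?_⟩
      rw [abs_of_nonneg h0] at hfacC
      rw [hfacC]
      exact Finset.prod_congr rfl fun i _ => by simp
    · have hw' : (w : ℂ) = -((|w| : ℝ) : ℂ) := by
        rw [abs_of_nonpos h0]; push_cast; ring
      rcases Nat.even_or_odd n with hn | hn
      · refine ⟨1, by simp, ?_⟩
        rw [hw', P_neg_even hn, hfacC, Polynomial.prod_comp]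
        have h2 : ∀ i ∈ range n, (X + C (x i : ℂ)).comp (-X) =
            (-1) * (X - C ((1 * x i : ℝ) : ℂ)) := fun i _ => by
          simp; ring
        rw [Finset.prod_congr rfl h2, Finset.prod_mul_distrib]
        simp [hn.neg_one_pow]
      · refine ⟨-1, by simp, ?_⟩
        rw [hw', P_neg_odd hn, hfacC]
        exact Finset.prod_congr rfl fun i _ => by simp
  obtain ⟨s, hs, hP⟩ := key
  refine ⟨fun i => s * x i, ?_, ?_⟩
  · rw [hP, ← Fin.prod_univ_eq_prod_range (fun i => X - C ((s * x i : ℝ) : ℂ)) n]
    have h3 : (∏ i : Fin n, (X - C ((s * x i : ℝ) : ℂ))) =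
        ((Finset.univ.val.map (fun i : Fin n => ((s * x i : ℝ) : ℂ))).map
          fun a => X - C a).prod := by
      rw [Multiset.map_map]; rfl
    rw [h3, roots_multiset_prod_X_sub_C]
  · intro i j hij
    have h4 := hx0 i i.2
    have h5 := hx0 j j.2
    rw [abs_mul, abs_mul, hs, one_mul, one_mul, abs_of_pos h4, abs_of_pos h5]
    exact hx1 i j hij j.2

end Pool.Agent.Results.MP_f76da2_an.RealCase
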